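import Pool.Agent.H971.DU.Final

/-! `MP_dd3681_pr`, Q2: in the intensive regime with dust the `Λ`-Fleming-Viot process never admits
an infinite sequence of Eves. -/

open MeasureTheory ProbabilityTheory Filter Topology Set Pool.Agent.H971.FV Pool.Agent.H971.DU
open scoped ENNReal NNReal unitInterval

universe u

namespace Pool.Agent.Results.MP_dd3681_pr.DustNoEves

/-- For every nonzero finite measure `Λ` on `[0,1]` with `Λ({0}) = 0` and `∫ u ν(du) < ∞`, where
`ν(du) = u⁻² Λ(du)`, no `Λ`-Fleming-Viot process started from Lebesgue measure has almost surely an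
infinite sequence of Eves. No assumption on `∫ u log u ν(du)` or on the mass of `ν` is made. -/
theorem result (Λ : Measure ℝ) (hΛ : DustRegime Λ) (Ω : Type u) [MeasurableSpace Ω]
    (P : Measure Ω) [IsProbabilityMeasure P] (ρ : ℝ≥0 → Ω → ProbabilityMeasure I)
    (hFV : IsFlemingViot Λ P ρ) : ¬ ∀ᵐ ω ∂P, HasEves (fun t => ρ t ω) :=
  dust_no_eves hΛ hFV

end Pool.Agent.Results.MP_dd3681_pr.DustNoEves
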